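import Mathlib

/-!
# An algebraic poset that is not weakly atomic

`Q` consists of a chain `m 0 < m 1 < ...` and elements `u s n` (`s` rational, `n` natural) with
`m n ≤ u s k` iff `n ≤ k` and `u s n < u t k` iff `s < t` and `n < k`.  The ideals of `Q` that
contain all `m n` form a densely ordered chain, so the algebraic poset of all ideals of `Q` has an
interval without covering pairs.
-/

namespace Pool.Agent.Results.MP_e59eee_co.NotWeaklyAtomic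

/-- Directed subset: nonempty, any two elements have an upper bound in the set. -/
def IsDir {P : Type*} [PartialOrder P] (D : Set P) : Prop :=
  D.Nonempty ∧ ∀ a ∈ D, ∀ b ∈ D, ∃ c ∈ D, a ≤ c ∧ b ≤ c

/-- Every directed subset has a least upper bound. -/
def UpComplete (P : Type*) [PartialOrder P] : Prop :=
  ∀ D : Set P, IsDir D → ∃ s, IsLUB D s

/-- Compact elements. -/
def IsCompactPt {P : Type*} [PartialOrder P] (c : P) : Prop :=
  ∀ D : Set P, IsDir D → ∀ s, IsLUB D s → c ≤ s → ∃ d ∈ D, c ≤ d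

/-- Algebraic posets: up-complete, and every element is the join of a directed set of
compact elements. -/
def Algebraic (P : Type*) [PartialOrder P] : Prop :=
  UpComplete P ∧ ∀ x : P, ∃ D : Set P, IsDir D ∧ (∀ c ∈ D, IsCompactPt c) ∧ IsLUB D x

/-- Weakly atomic posets: every interval `[x, y]` with `x < y` contains a covering pair. -/
def WeaklyAtomic (P : Type*) [PartialOrder P] : Prop :=
  ∀ x y : P, x < y → ∃ u v : P, x ≤ u ∧ u < v ∧ v ≤ y ∧ ¬ ∃ w, u < w ∧ w < v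

section Ideals

variable {Q : Type*} [PartialOrder Q]

/-- The union of a directed set of ideals. -/
def unionIdeal (D : Set (Order.Ideal Q)) (hD : IsDir D) : Order.Ideal Q where
  carrier := {q | ∃ I ∈ D, q ∈ I}
  lower' := by
    rintro a b hba ⟨I, hI, ha⟩
    exact ⟨I, hI, I.lower hba ha⟩
  nonempty' := by
    obtain ⟨I, hI⟩ := hD.1
    obtain ⟨q, hq⟩ := I.nonempty
    exact ⟨q, I, hI, hq⟩
  directed' := by
    rintro a ⟨I, hI, ha⟩ b ⟨J, hJ, hb⟩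
    obtain ⟨K, hK, hIK, hJK⟩ := hD.2 I hI J hJ
    obtain ⟨c, hc, hac, hbc⟩ := K.directed a (hIK ha) b (hJK hb)
    exact ⟨c, ⟨K, hK, hc⟩, hac, hbc⟩

lemma mem_unionIdeal (D : Set (Order.Ideal Q)) (hD : IsDir D) (q : Q) :
    q ∈ unionIdeal D hD ↔ ∃ I ∈ D, q ∈ I := Iff.rfl

lemma isLUB_unionIdeal (D : Set (Order.Ideal Q)) (hD : IsDir D) :
    IsLUB D (unionIdeal D hD) := by
  constructor
  · intro I hI q hq
    exact ⟨I, hI, hq⟩
  · intro J hJ q hq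
    obtain ⟨I, hI, hqI⟩ := hq
    exact hJ hI hqI

lemma compact_principal (q : Q) : IsCompactPt (Order.Ideal.principal q) := by
  intro D hD s hs hqs
  have h : s = unionIdeal D hD := hs.unique (isLUB_unionIdeal D hD)
  have hq : q ∈ s := hqs (Order.Ideal.mem_principal_self)
  rw [h] at hq
  obtain ⟨I, hI, hqI⟩ := hq
  exact ⟨I, hI, Order.Ideal.principal_le_iff.2 hqI⟩

/-- The ideals of a poset form an algebraic poset. -/
lemma algebraic_ideal : Algebraic (Order.Ideal Q) := by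
  refine ⟨fun D hD => ⟨_, isLUB_unionIdeal D hD⟩, fun x => ?_⟩
  refine ⟨{I | ∃ q ∈ x, I = Order.Ideal.principal q}, ⟨?_, ?_⟩, ?_, ?_, ?_⟩
  · obtain ⟨q, hq⟩ := x.nonempty
    exact ⟨_, q, hq, rfl⟩
  · rintro _ ⟨a, ha, rfl⟩ _ ⟨b, hb, rfl⟩
    obtain ⟨c, hc, hac, hbc⟩ := x.directed a ha b hb
    refine ⟨_, ⟨c, hc, rfl⟩, ?_, ?_⟩
    · exact Order.Ideal.principal_le_iff.2 (Order.Ideal.mem_principal.2 hac)
    · exact Order.Ideal.principal_le_iff.2 (Order.Ideal.mem_principal.2 hbc)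
  · rintro _ ⟨q, -, rfl⟩
    exact compact_principal q
  · rintro _ ⟨q, hq, rfl⟩
    exact Order.Ideal.principal_le_iff.2 hq
  · intro J hJ q hq
    exact hJ ⟨q, hq, rfl⟩ (Order.Ideal.mem_principal_self)

end Ideals

/-- The poset of compact elements of the example. -/
inductive Q : Type
  | m : ℕ → Q
  | u : ℚ → ℕ → Q

/-- The order of `Q`. -/
def Q.le : Q → Q → Prop
  | .m n, .m k => n ≤ k
  | .m n, .u _ k => n ≤ k
  | .u _ _, .m _ => False
  | .u s n, .u t k => (s = t ∧ n = k) ∨ (s < t ∧ n < k)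

instance : PartialOrder Q where
  le := Q.le
  le_refl := by
    rintro (n | ⟨s, n⟩)
    · exact le_refl n
    · exact Or.inl ⟨rfl, rfl⟩
  le_trans := by
    rintro (n | ⟨s, n⟩) (k | ⟨t, k⟩) (l | ⟨r, l⟩) h1 h2 <;>
      simp only [Q.le] at h1 h2 ⊢
    · exact h1.trans h2
    · exact h1.trans h2
    · rcases h2 with ⟨_, h⟩ | ⟨_, h⟩ <;> omega
    · rcases h1 with ⟨rfl, rfl⟩ | ⟨h, h'⟩
      · exact h2
      · rcases h2 with ⟨rfl, rfl⟩ | ⟨g, g'⟩
        · exact Or.inr ⟨h, h'⟩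
        · exact Or.inr ⟨h.trans g, h'.trans g'⟩
  le_antisymm := by
    rintro (n | ⟨s, n⟩) (k | ⟨t, k⟩) h1 h2 <;> simp only [Q.le] at h1 h2
    · rw [le_antisymm h1 h2]
    · rcases h1 with ⟨rfl, rfl⟩ | ⟨h, h'⟩
      · rfl
      · rcases h2 with ⟨rfl, rfl⟩ | ⟨g, g'⟩
        · rfl
        · exact absurd (h.trans g) (lt_irrefl _)

lemma m_le_m {n k : ℕ} : Q.m n ≤ Q.m k ↔ n ≤ k := Iff.rfl
lemma m_le_u {n k : ℕ} {s : ℚ} : Q.m n ≤ Q.u s k ↔ n ≤ k := Iff.rfl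
lemma u_le_m {n k : ℕ} {s : ℚ} : Q.u s n ≤ Q.m k ↔ False := Iff.rfl
lemma u_le_u {n k : ℕ} {s t : ℚ} : Q.u s n ≤ Q.u t k ↔ (s = t ∧ n = k) ∨ (s < t ∧ n < k) := Iff.rfl

/-- The ideal of all `m n`. -/
def bot : Order.Ideal Q where
  carrier := {q | ∃ n, q = Q.m n}
  lower' := by
    rintro _ b h ⟨n, rfl⟩
    rcases b with k | ⟨t, k⟩
    · exact ⟨k, rfl⟩
    · exact (u_le_m.1 h).elim
  nonempty' := ⟨Q.m 0, 0, rfl⟩
  directed' := by
    rintro _ ⟨n, rfl⟩ _ ⟨k, rfl⟩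
    exact ⟨Q.m (max n k), ⟨_, rfl⟩, m_le_m.2 (le_max_left _ _), m_le_m.2 (le_max_right _ _)⟩

/-- The ideal of all `m n` and all `u r n` with `r < θ`. -/
def J (θ : ℚ) : Order.Ideal Q where
  carrier := {q | (∃ n, q = Q.m n) ∨ ∃ r n, r < θ ∧ q = Q.u r n}
  lower' := by
    rintro _ b h (⟨n, rfl⟩ | ⟨r, n, hr, rfl⟩)
    · rcases b with k | ⟨t, k⟩
      · exact Or.inl ⟨k, rfl⟩
      · exact (u_le_m.1 h).elim
    · rcases b with k | ⟨t, k⟩
      · exact Or.inl ⟨k, rfl⟩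
      · rcases u_le_u.1 h with ⟨rfl, rfl⟩ | ⟨h1, -⟩
        · exact Or.inr ⟨_, _, hr, rfl⟩
        · exact Or.inr ⟨_, _, h1.trans hr, rfl⟩
  nonempty' := ⟨Q.m 0, Or.inl ⟨0, rfl⟩⟩
  directed' := by
    rintro _ (⟨n, rfl⟩ | ⟨r, n, hr, rfl⟩) _ (⟨k, rfl⟩ | ⟨t, k, ht, rfl⟩)
    · exact ⟨Q.m (max n k), Or.inl ⟨_, rfl⟩, m_le_m.2 (le_max_left _ _), m_le_m.2 (le_max_right _ _)⟩
    · obtain ⟨p, hp1, hp2⟩ := exists_between ht
      exact ⟨Q.u p (n + k + 1), Or.inr ⟨_, _, hp2, rfl⟩, m_le_u.2 (by omega),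
        u_le_u.2 (Or.inr ⟨hp1, by omega⟩)⟩
    · obtain ⟨p, hp1, hp2⟩ := exists_between hr
      exact ⟨Q.u p (n + k + 1), Or.inr ⟨_, _, hp2, rfl⟩, u_le_u.2 (Or.inr ⟨hp1, by omega⟩),
        m_le_u.2 (by omega)⟩
    · obtain ⟨p, hp1, hp2⟩ := exists_between (max_lt hr ht)
      exact ⟨Q.u p (n + k + 1), Or.inr ⟨_, _, hp2, rfl⟩,
        u_le_u.2 (Or.inr ⟨(le_max_left _ _).trans_lt hp1, by omega⟩),
        u_le_u.2 (Or.inr ⟨(le_max_right _ _).trans_lt hp1, by omega⟩)⟩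

/-- The ideal of all elements. -/
def top : Order.Ideal Q where
  carrier := Set.univ
  lower' := fun _ _ _ _ => trivial
  nonempty' := ⟨Q.m 0, trivial⟩
  directed' := by
    rintro (n | ⟨r, n⟩) - (k | ⟨t, k⟩) -
    · exact ⟨Q.m (max n k), trivial, m_le_m.2 (le_max_left _ _), m_le_m.2 (le_max_right _ _)⟩
    · exact ⟨Q.u (t + 1) (n + k + 1), trivial, m_le_u.2 (by omega),
        u_le_u.2 (Or.inr ⟨by linarith, by omega⟩)⟩
    · exact ⟨Q.u (r + 1) (n + k + 1), trivial, u_le_u.2 (Or.inr ⟨by linarith, by omega⟩),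
        m_le_u.2 (by omega)⟩
    · exact ⟨Q.u (max r t + 1) (n + k + 1), trivial,
        u_le_u.2 (Or.inr ⟨(le_max_left _ _).trans_lt (by linarith), by omega⟩),
        u_le_u.2 (Or.inr ⟨(le_max_right _ _).trans_lt (by linarith), by omega⟩)⟩

/-- In an ideal with all `m n`, above every `u s n` there is a `u t l` with `t > s` and `l`
as large as we like. -/
lemma exists_above (V : Order.Ideal Q) (hV : bot ≤ V) {s : ℚ} {n : ℕ} (h : Q.u s n ∈ V) (k : ℕ) :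
    ∃ t l, s < t ∧ k ≤ l ∧ Q.u t l ∈ V := by
  have hm : Q.m (n + k + 1) ∈ V := hV ⟨_, rfl⟩
  obtain ⟨c, hc, h1, h2⟩ := V.directed _ h _ hm
  rcases c with l | ⟨t, l⟩
  · exact (u_le_m.1 h1).elim
  · rw [m_le_u] at h2
    rcases u_le_u.1 h1 with ⟨rfl, rfl⟩ | ⟨h3, h4⟩
    · omega
    · exact ⟨t, l, h3, by omega, hc⟩

lemma mem_of_lt (V : Order.Ideal Q) (hV : bot ≤ V) {s t : ℚ} {n k : ℕ} (h : Q.u s n ∈ V)
    (hts : t ≤ s) : Q.u t k ∈ V := by
  obtain ⟨r, l, hr, hl, hm⟩ := exists_above V hV h (k + 1)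
  exact V.lower (u_le_u.2 (Or.inr ⟨lt_of_le_of_lt hts hr, by omega⟩)) hm

lemma no_cover (U V : Order.Ideal Q) (hU : bot ≤ U) (hUV : U < V) :
    ∃ W, U < W ∧ W < V := by
  have hV : bot ≤ V := hU.trans hUV.le
  obtain ⟨q, hqV, hqU⟩ := Set.exists_of_ssubset (show (U : Set Q) ⊂ (V : Set Q) from hUV)
  rcases q with n | ⟨s, n⟩
  · exact (hqU (hU ⟨n, rfl⟩)).elim
  obtain ⟨t, l, hst, hl, ht⟩ := exists_above V hV hqV 0
  obtain ⟨θ, hθ1, hθ2⟩ := exists_between hst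
  have hUJ : U ≤ J θ := by
    rintro (k | ⟨r, k⟩) hk
    · exact Or.inl ⟨k, rfl⟩
    · refine Or.inr ⟨r, k, ?_, rfl⟩
      by_contra hr
      exact hqU (mem_of_lt U hU hk (hθ1.le.trans (not_lt.1 hr)))
  have hJV : J θ ≤ V := by
    rintro _ (⟨k, rfl⟩ | ⟨r, k, hr, rfl⟩)
    · exact hV ⟨k, rfl⟩
    · exact mem_of_lt V hV ht (hr.trans hθ2).le
  refine ⟨J θ, lt_of_le_of_ne hUJ ?_, lt_of_le_of_ne hJV ?_⟩
  · intro h
    apply hqU
    rw [h]
    exact Or.inr ⟨s, n, hθ1, rfl⟩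
  · intro h
    rw [← h] at ht
    rcases ht with ⟨k, hk⟩ | ⟨r, k, hr, hk⟩
    · cases hk
    · cases hk
      exact absurd (hr.trans hθ2) (lt_irrefl _)

lemma bot_lt_top : bot < top := by
  refine lt_of_le_of_ne (fun _ _ => trivial) ?_
  intro h
  have h1 : Q.u 0 0 ∈ top := trivial
  rw [← h] at h1
  obtain ⟨n, hn⟩ := h1
  cases hn

/-- **Not every algebraic poset is weakly atomic.** -/
theorem result : ∃ (P : Type) (_ : PartialOrder P), Algebraic P ∧ ¬ WeaklyAtomic P := by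
  refine ⟨Order.Ideal Q, inferInstance, algebraic_ideal, ?_⟩
  intro h
  obtain ⟨u, v, h1, h2, -, h3⟩ := h bot top bot_lt_top
  exact h3 (no_cover u v h1 h2)

end Pool.Agent.Results.MP_e59eee_co.NotWeaklyAtomic
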